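import Pool.Agent.Y171.CG.Stm3
import Pool.Agent.Y171.CG.Tool
import Pool.Agent.Y367.CG.Bas
import Pool.Agent.Y284.CG.Dom
import Pool.Agent.Y563.CG.Fb

/-! # Layer cake formulas (project CG) -/

set_option autoImplicit false

open MeasureTheory Finset Set Filter Topology

namespace Pool.Agent.Y297.CG

open Pool.Agent.Y171.CG

theorem ae_nu : ∀ᵐ t ∂nu, 0 < t ∧ t < 1 := by
  unfold nu
  have h1 : ∀ᵐ t ∂(volume.restrict (Set.Icc (0 : ℝ) 1)), t ∈ Set.Icc (0 : ℝ) 1 :=
    ae_restrict_mem measurableSet_Icc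
  have h2 : ∀ᵐ t ∂(volume.restrict (Set.Icc (0 : ℝ) 1)), t ≠ 0 :=
    compl_mem_ae_iff.mpr (measure_singleton 0)
  have h3 : ∀ᵐ t ∂(volume.restrict (Set.Icc (0 : ℝ) 1)), t ≠ 1 :=
    compl_mem_ae_iff.mpr (measure_singleton 1)
  filter_upwards [h1, h2, h3] with t a b c
  exact ⟨lt_of_le_of_ne a.1 (Ne.symm b), lt_of_le_of_ne a.2 c⟩

theorem ae_cube (k : ℕ) : ∀ᵐ u ∂cube k, ∀ i, 0 < u i ∧ u i < 1 := by
  rw [ae_all_iff]
  intro i
  unfold cube
  exact (Measure.tendsto_eval_ae_ae (μ := fun _ : Fin k => nu) (i := i)).eventually ae_nu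

theorem unif_eq (k : ℕ) : unif k = cube k := rfl

variable {g : ℕ → ℝ} {k : ℕ}

theorem K_nonneg (hg : ∀ r, 2 ≤ r → 0 < g r) {u : Fin k → ℝ} (hu : ∀ i, 0 ≤ u i) :
    0 ≤ K g u := by
  unfold K
  apply Real.iSup_nonneg
  intro A
  exact div_nonneg (hg _ A.2).le (Real.iSup_nonneg fun i => hu i)

theorem measurable_K (g : ℕ → ℝ) (k : ℕ) : Measurable (fun u : Fin k → ℝ => K g u) := by
  unfold K
  apply Measurable.iSup
  intro A
  apply Measurable.const_div
  apply Measurable.iSup
  intro i
  exact measurable_pi_apply _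

theorem lt_K_iff (hg : ∀ r, 2 ≤ r → 0 < g r) {u : Fin k → ℝ} (hu : ∀ i, 0 < u i) {z : ℝ}
    (hz : 0 < z) : z < K g u ↔ Hit g (fun _ => 1) z u := by
  constructor
  · intro h
    rcases isEmpty_or_nonempty {A : Finset (Fin k) // 2 ≤ A.card} with he | he
    · unfold K at h
      rw [Real.iSup_of_isEmpty] at h
      exact absurd h (not_lt.mpr hz.le)
    · obtain ⟨A, hA⟩ := exists_lt_of_lt_ciSup h
      obtain ⟨A, hA2⟩ := A
      dsimp only at hA
      have hne : A.Nonempty := Finset.card_pos.mp (by omega)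
      obtain ⟨i0, hi0⟩ := hne
      have hle : ∀ i ∈ A, u i ≤ ⨆ i : A, u i := fun i hi =>
        le_ciSup (f := fun i : A => u i) (Set.finite_range _).bddAbove ⟨i, hi⟩
      have hs : 0 < ⨆ i : A, u i := (hu i0).trans_le (hle i0 hi0)
      rw [lt_div_iff₀ hs] at hA
      refine ⟨A.card, hA2, ?_⟩
      unfold cnt
      apply Finset.card_le_card
      intro i hi
      simp only [Finset.mem_filter, Finset.mem_univ, true_and, mul_one]
      calc u i * z ≤ (⨆ i : A, u i) * z := mul_le_mul_of_nonneg_right (hle i hi) hz.le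
        _ = z * ⨆ i : A, u i := mul_comm _ _
        _ < g A.card := hA
  · rintro ⟨r, hr, hc⟩
    unfold cnt at hc
    obtain ⟨A, hA, hAc⟩ := Finset.exists_subset_card_eq hc
    have hA2 : 2 ≤ A.card := by omega
    have hne : A.Nonempty := Finset.card_pos.mp (by omega)
    have : Nonempty A := hne.to_subtype
    obtain ⟨i, hi⟩ := exists_eq_ciSup_of_finite (f := fun i : A => u i)
    have hi1 := hA i.2
    simp only [Finset.mem_filter, Finset.mem_univ, true_and, mul_one] at hi1
    have h1 : z < g A.card / ⨆ i : A, u i := by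
      rw [← hi, lt_div_iff₀ (hu _), mul_comm, hAc]
      exact hi1
    refine h1.trans_le ?_
    unfold K
    exact le_ciSup (f := fun A : {A : Finset (Fin k) // 2 ≤ A.card} => g A.1.card / ⨆ i : A.1, u i)
      (Set.finite_range _).bddAbove ⟨A, hA2⟩

/-- layer cake -/
theorem lc {α : Type*} [MeasurableSpace α] {μ : Measure α} [IsFiniteMeasure μ] {f : α → ℝ}
    (hf : Measurable f) (h0 : ∀ᵐ a ∂μ, 0 ≤ f a) {G : ℝ → ℝ} (hG : IntegrableOn G (Ioi 0))
    (h : ∀ z, 0 < z → μ.real {a | z < f a} = G z) :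
    Integrable f μ ∧ ∫ a, f a ∂μ = ∫ z in Ioi (0 : ℝ), G z := by
  have h1 : ∫⁻ a, ENNReal.ofReal (f a) ∂μ = ∫⁻ z in Ioi (0 : ℝ), ENNReal.ofReal (G z) := by
    rw [lintegral_eq_lintegral_meas_lt μ h0 hf.aemeasurable]
    apply setLIntegral_congr_fun measurableSet_Ioi
    intro z hz
    show μ {a | z < f a} = ENNReal.ofReal (G z)
    rw [← h z hz]
    exact (ENNReal.ofReal_toReal (measure_ne_top _ _)).symm
  have h2 : Integrable f μ := by
    refine ⟨hf.aestronglyMeasurable, ?_⟩
    rw [hasFiniteIntegral_iff_ofReal h0, h1]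
    exact Integrable.lintegral_lt_top hG
  refine ⟨h2, ?_⟩
  rw [h2.integral_eq_integral_meas_lt h0]
  apply setIntegral_congr_fun measurableSet_Ioi
  intro z hz
  exact h z hz

theorem lbd (hg : ∀ r, 2 ≤ r → 0 < g r) : Pool.Agent.Y367.CG.LBd g := by
  intro n
  refine ⟨∑ r ∈ range (n + 1), |g r|, Finset.sum_nonneg fun _ _ => abs_nonneg _, ?_⟩
  intro r _ hrn
  exact (le_abs_self _).trans (Finset.single_le_sum (f := fun r => |g r|)
    (fun _ _ => abs_nonneg _) (Finset.mem_range.2 (by omega)))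

theorem real_le (hg : ∀ r, 2 ≤ r → 0 < g r) {z : ℝ} (hz : 0 < z) :
    (cube k).real {u | K g u ≤ z} = F g k z := by
  unfold F
  apply measureReal_congr
  filter_upwards [ae_cube k] with u hu
  apply propext
  show K g u ≤ z ↔ ¬ Hit g (fun _ => 1) z u
  rw [← lt_K_iff hg (fun i => (hu i).1) hz, not_lt]

theorem lcj : S_LCJ := by
  intro g n hg
  rw [unif_eq]
  refine lc (measurable_K g n) ?_
    (Pool.Agent.Y367.CG.intB Pool.Agent.Y563.CG.Fb.mef Pool.Agent.Y563.CG.Fb.tai (lbd hg) n) ?_
  · filter_upwards [ae_cube n] with u hu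
    exact K_nonneg hg fun i => (hu i).1.le
  · intro z hz
    have h1 : {u : Fin n → ℝ | z < K g u} = {u | K g u ≤ z}ᶜ := by
      ext u
      simp
    rw [h1, probReal_compl_eq_one_sub (measurableSet_le (measurable_K g n) measurable_const),
      real_le hg hz]

theorem lcw : S_LCW := by
  intro g k hg hk
  constructor
  · have h := lc (μ := (cube k).prod (cube k))
      (f := fun p : (Fin k → ℝ) × (Fin k → ℝ) => max (K g p.1) (K g p.2))
      (((measurable_K g k).comp measurable_fst).max ((measurable_K g k).comp measurable_snd))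
      (by
        have h1 : ∀ᵐ p ∂((cube k).prod (cube k)), ∀ i, 0 < p.1 i ∧ p.1 i < 1 :=
          Measure.quasiMeasurePreserving_fst.ae (ae_cube k)
        filter_upwards [h1] with p hp
        exact le_max_of_le_left (K_nonneg hg fun i => (hp i).1.le))
      (Pool.Agent.Y367.CG.intFF Pool.Agent.Y563.CG.Fb.mef Pool.Agent.Y563.CG.Fb.tai (lbd hg) k k)
      (by
        intro z hz
        have h1 : {p : (Fin k → ℝ) × (Fin k → ℝ) | z < max (K g p.1) (K g p.2)} =
            ({u | K g u ≤ z} ×ˢ {u | K g u ≤ z})ᶜ := by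
          ext p
          simp only [Set.mem_ofPred_eq, Set.mem_compl_iff, Set.mem_prod, lt_max_iff, not_and_or,
            not_le]
        have hm : MeasurableSet {u : Fin k → ℝ | K g u ≤ z} :=
          measurableSet_le (measurable_K g k) measurable_const
        rw [h1, probReal_compl_eq_one_sub (hm.prod hm), measureReal_prod_prod, real_le hg hz])
    unfold lowB W
    rw [unif_eq, h.2, Pool.Agent.Y367.CG.Psi_one]
    rw [div_eq_mul_inv, one_div, mul_comm]
  · have hm1 : Measurable (fun u : Fin k → ℝ => fun i => 1 - u i) := by fun_prop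
    have hm2 : Measurable (fun u : Fin k → ℝ => K g (fun i => 1 - u i)) :=
      (measurable_K g k).comp hm1
    have h := lc (μ := cube k)
      (f := fun u : Fin k → ℝ => max (K g u) (K g (fun i => 1 - u i)))
      ((measurable_K g k).max hm2)
      (by
        filter_upwards [ae_cube k] with u hu
        exact le_max_of_le_left (K_nonneg hg fun i => (hu i).1.le))
      (Pool.Agent.Y284.CG.intB (k := k) Pool.Agent.Y563.CG.Fb.meb Pool.Agent.Y563.CG.Fb.tab
        (fun r hr => (hg r hr).le) (m := fun (_ : Bool) (_ : Fin k) => (1 : ℝ))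
        (fun _ _ => zero_le_one))
      (by
        intro z hz
        unfold B
        apply measureReal_congr
        filter_upwards [ae_cube k] with u hu
        apply propext
        show z < max (K g u) (K g (fun i => 1 - u i)) ↔
          (Hit g (fun _ => 1) z u ∨ Hit g (fun _ => 1) z (fun i => 1 - u i))
        rw [lt_max_iff, lt_K_iff hg (fun i => (hu i).1) hz,
          lt_K_iff hg (fun i => by linarith [(hu i).2]) hz])
    unfold uppB Wa
    rw [unif_eq, h.2]
    rw [div_eq_mul_inv, one_div, mul_comm]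

end Pool.Agent.Y297.CG
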